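import Mathlib
import Pool.Agent.Y268.D3.Stm
import Pool.Agent.H71R2.Kad.Block
import Pool.Agent.H777R2.Kad.Dix

/-!
# D3: the structure theorem for 2 x 2 matrices, and the properties of 2 x 2 matrices
(helper349, for helper268)
-/

set_option autoImplicit false

open scoped ComplexOrder InnerProductSpace ComplexConjugate
open Finset

noncomputable section

namespace Y349.D3

open H759R2.Kad H711R2.KG Y268.D3

section basics

variable {N : Type} [CStarAlgebra N]

/-- the matrix with a single entry -/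
def e (i j : Fin 2) (y : N) : CStarMatrix (Fin 2) (Fin 2) N :=
  CStarMatrix.ofMatrix fun a b => if a = i ∧ b = j then y else 0

theorem e_apply (i j : Fin 2) (y : N) (a b : Fin 2) :
    e i j y a b = if a = i ∧ b = j then y else 0 := rfl

theorem mD_apply (a b : Fin 2) : mD N a b = (!![1, 0; 0, -1] : Matrix (Fin 2) (Fin 2) ℂ) a b • (1 : N) :=
  rfl

theorem mP_apply (a b : Fin 2) : mP N a b = (!![0, 1; 1, 0] : Matrix (Fin 2) (Fin 2) ℂ) a b • (1 : N) :=
  rfl

theorem mD_e0 (j : Fin 2) (y : N) : mD N * e 0 j y = e 0 j y := by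
  ext a b
  rw [CStarMatrix.mul_apply, Fin.sum_univ_two]
  fin_cases a <;> simp [mD_apply, e_apply]

theorem mD_e1 (j : Fin 2) (y : N) : mD N * e 1 j y = -e 1 j y := by
  ext a b
  rw [CStarMatrix.mul_apply, Fin.sum_univ_two, CStarMatrix.neg_apply]
  by_cases h : b = j <;> fin_cases a <;> simp [mD_apply, e_apply, h]

theorem mP_e0 (j : Fin 2) (y : N) : mP N * e 0 j y = e 1 j y := by
  ext a b
  rw [CStarMatrix.mul_apply, Fin.sum_univ_two]
  fin_cases a <;> simp [mP_apply, e_apply]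

theorem e0_mD (i : Fin 2) (y : N) : e i 0 y * mD N = e i 0 y := by
  ext a b
  rw [CStarMatrix.mul_apply, Fin.sum_univ_two]
  fin_cases b <;> simp [mD_apply, e_apply]

theorem e1_mD (i : Fin 2) (y : N) : e i 1 y * mD N = -e i 1 y := by
  ext a b
  rw [CStarMatrix.mul_apply, Fin.sum_univ_two, CStarMatrix.neg_apply]
  fin_cases b <;> simp [mD_apply, e_apply]

theorem e0_mP (i : Fin 2) (y : N) : e i 0 y * mP N = e i 1 y := by
  ext a b
  rw [CStarMatrix.mul_apply, Fin.sum_univ_two]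
  fin_cases b <;> simp [mP_apply, e_apply]

theorem sum_e (Y : CStarMatrix (Fin 2) (Fin 2) N) :
    Y = e 0 0 (Y 0 0) + e 0 1 (Y 0 1) + e 1 0 (Y 1 0) + e 1 1 (Y 1 1) := by
  ext a b
  simp only [CStarMatrix.add_apply, e_apply]
  fin_cases a <;> fin_cases b <;> simp

theorem dg_e (y : N) : tens (1 : Matrix (Fin 2) (Fin 2) ℂ) y = e 0 0 y + e 1 1 y := by
  ext a b
  rw [CStarMatrix.add_apply, e_apply, e_apply]
  change (1 : Matrix (Fin 2) (Fin 2) ℂ) a b • y = _
  fin_cases a <;> fin_cases b <;> simp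

theorem dg_apply (y : N) (a b : Fin 2) :
    tens (1 : Matrix (Fin 2) (Fin 2) ℂ) y a b = if a = b then y else 0 := by
  change (1 : Matrix (Fin 2) (Fin 2) ℂ) a b • y = _
  rw [Matrix.one_apply]
  split_ifs <;> simp

/-- diagonal matrices as a homomorphism -/
def dgh (N : Type) [CStarAlgebra N] : N →⋆ₐ[ℂ] CStarMatrix (Fin 2) (Fin 2) N where
  toFun y := tens (1 : Matrix (Fin 2) (Fin 2) ℂ) y
  map_one' := by
    ext a b
    rw [dg_apply, CStarMatrix.one_apply]
  map_mul' x y := by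
    ext a b
    rw [dg_apply, CStarMatrix.mul_apply, Fin.sum_univ_two, dg_apply, dg_apply, dg_apply, dg_apply]
    fin_cases a <;> fin_cases b <;> simp
  map_zero' := by
    ext a b
    rw [dg_apply]
    simp
  map_add' x y := by
    ext a b
    rw [CStarMatrix.add_apply, dg_apply, dg_apply, dg_apply]
    split_ifs <;> simp
  commutes' c := by
    ext a b
    rw [dg_apply, CStarMatrix.algebraMap_apply]
  map_star' x := by
    ext a b
    rw [CStarMatrix.star_apply, dg_apply, dg_apply]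
    by_cases h : a = b
    · rw [if_pos h, if_pos h.symm]
    · rw [if_neg h, if_neg (Ne.symm h), star_zero]

theorem dgh_apply (y : N) : dgh N y = tens (1 : Matrix (Fin 2) (Fin 2) ℂ) y := rfl

theorem norm_dgh_le [PartialOrder N] [StarOrderedRing N] (y : N) : ‖dgh N y‖ ≤ ‖y‖ := NonUnitalStarAlgHom.norm_apply_le (dgh N) y

end basics

section form

variable {B : Type} [CStarAlgebra B] {f : B → B → ℂ} {C : ℝ}

theorem add_left (hf : IsFormB f C) (x x' y : B) : f (x + x') y = f x y + f x' y := by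
  rw [hf.herm y (x + x'), hf.add, map_add, ← hf.herm, ← hf.herm]

theorem neg_right (hf : IsFormB f C) (x y : B) : f x (-y) = -f x y := by
  have := hf.smul (-1) x y
  simpa using this

theorem neg_left (hf : IsFormB f C) (x y : B) : f (-x) y = -f x y := by
  rw [hf.herm y (-x), neg_right hf, map_neg, ← hf.herm]

end form

theorem prove_isoM (h : S_isoN) : S_isoM := by
  intro N _ _ _ τ hτ E hE f C hf n hV hinv
  have hnt : Nontrivial N := by
    refine ⟨1, 0, fun h01 => ?_⟩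
    have h1 := hτ.one
    rw [h01, map_zero] at h1
    exact zero_ne_one h1
  have hC : 0 ≤ C := by
    have h1 := hf.bd (dgh N 1) (dgh N 1)
    have h2 : ‖dgh N 1‖ = 1 := by
      rw [map_one]
      have : Nontrivial (CStarMatrix (Fin 2) (Fin 2) N) := by
        refine ⟨1, 0, fun h01 => ?_⟩
        have h3 := congrFun (congrFun h01 0) 0
        rw [CStarMatrix.one_apply, if_pos rfl] at h3
        exact one_ne_zero h3
      exact CStarRing.norm_one
    rw [h2, mul_one, mul_one] at h1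
    exact (norm_nonneg _).trans h1
  have kill : ∀ x : ℂ, -x = x → x = 0 := fun x hx => by
    have : (2 : ℂ) * x = 0 := by linear_combination -hx
    simpa using this
  have L01 : ∀ j l (y y' : N), f (e 0 j y) (e 1 l y') = 0 := by
    intro j l y y'
    have h1 := (hinv (e 0 j y) (e 1 l y')).1
    rw [mD_e0, mD_e1, neg_right hf] at h1
    exact kill _ h1
  have L10 : ∀ j l (y y' : N), f (e 1 j y) (e 0 l y') = 0 := by
    intro j l y y'
    rw [hf.herm, L01, map_zero]
  have R01 : ∀ i k (y y' : N), f (e i 0 y) (e k 1 y') = 0 := by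
    intro j l y y'
    have h1 := (hinv (e j 0 y) (e l 1 y')).2.2.1
    rw [e0_mD, e1_mD, neg_right hf] at h1
    exact kill _ h1
  have R10 : ∀ i k (y y' : N), f (e i 1 y) (e k 0 y') = 0 := by
    intro j l y y'
    rw [hf.herm, R01, map_zero]
  have m1 : ∀ j (y y' : N), f (e 1 j y) (e 1 j y') = f (e 0 j y) (e 0 j y') := by
    intro j y y'
    have h1 := (hinv (e 0 j y) (e 0 j y')).2.1
    rwa [mP_e0, mP_e0] at h1
  have m2 : ∀ i (y y' : N), f (e i 1 y) (e i 1 y') = f (e i 0 y) (e i 0 y') := by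
    intro j y y'
    have h1 := (hinv (e j 0 y) (e j 0 y')).2.2.2
    rwa [e0_mP, e0_mP] at h1
  have hexp : ∀ Y Y' : CStarMatrix (Fin 2) (Fin 2) N, f Y Y' =
      f (e 0 0 (Y 0 0)) (e 0 0 (Y' 0 0)) + f (e 0 0 (Y 0 1)) (e 0 0 (Y' 0 1)) +
      f (e 0 0 (Y 1 0)) (e 0 0 (Y' 1 0)) + f (e 0 0 (Y 1 1)) (e 0 0 (Y' 1 1)) := by
    intro Y Y'
    conv_lhs => rw [sum_e Y, sum_e Y']
    simp only [add_left hf, hf.add, L01, L10, R01, R10, m1, m2, add_zero, zero_add]
  -- the form on `N`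
  have hf0e : ∀ y y' : N, f (dgh N y) (dgh N y') = 2 * f (e 0 0 y) (e 0 0 y') := by
    intro y y'
    rw [dgh_apply, dgh_apply, dg_e, dg_e]
    simp only [add_left hf, hf.add, L01, L10, m1, m2, add_zero, zero_add]
    ring
  have hf0 : IsFormB (fun y y' => f (dgh N y) (dgh N y')) C := by
    refine ⟨fun x y z => ?_, fun c x y => ?_, fun x y => hf.herm _ _, fun x => hf.pos _,
      fun x y => ?_⟩
    · rw [map_add, hf.add]
    · rw [map_smul, hf.smul]
    · refine (hf.bd _ _).trans ?_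
      have h1 := norm_dgh_le x
      have h2 := norm_dgh_le y
      gcongr
  obtain ⟨ρ₀, ρ₀', hρ, hρ', h1, h2⟩ := h N τ hτ E hE _ C hf0 n (fun V hVu => by
    rw [Fin.sum_univ_two, Fin.sum_univ_two, Fin.sum_univ_two]
    simp only [hf0e]
    rw [← hV V hVu, hexp V V]
    ring)
  have key : ∀ ρ : N →L[ℂ] ℂ, ‖ρ‖ ≤ 4 * C → ∃ r : CStarMatrix (Fin 2) (Fin 2) N →L[ℂ] ℂ,
      ‖r‖ ≤ 4 * C ∧ ∀ Z, r Z = 1 / 2 * (ρ (Z 0 0) + ρ (Z 1 1)) := by
    intro ρ hρ
    have hC4 : 0 ≤ 4 * C := by linarith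
    let r0 : CStarMatrix (Fin 2) (Fin 2) N →ₗ[ℂ] ℂ :=
      { toFun := fun Z => 1 / 2 * (ρ (Z 0 0) + ρ (Z 1 1))
        map_add' := fun Z Z' => by
          rw [CStarMatrix.add_apply, CStarMatrix.add_apply, map_add, map_add]
          ring
        map_smul' := fun c Z => by
          rw [CStarMatrix.smul_apply, CStarMatrix.smul_apply, map_smul, map_smul,
            RingHom.id_apply, smul_eq_mul, smul_eq_mul, smul_eq_mul]
          ring }
    have hb : ∀ Z, ‖r0 Z‖ ≤ 4 * C * ‖Z‖ := by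
      intro Z
      change ‖1 / 2 * (ρ (Z 0 0) + ρ (Z 1 1))‖ ≤ _
      rw [norm_mul]
      have e0 : ∀ i, ‖ρ (Z i i)‖ ≤ 4 * C * ‖Z‖ := fun i =>
        (ρ.le_opNorm _).trans (mul_le_mul hρ CStarMatrix.norm_entry_le_norm (norm_nonneg _) hC4)
      have e1 := norm_add_le (ρ (Z 0 0)) (ρ (Z 1 1))
      have e2 := e0 0
      have e3 := e0 1
      have e4 : ‖(1 / 2 : ℂ)‖ = 1 / 2 := by norm_num
      rw [e4]
      linarith
    exact ⟨r0.mkContinuous (4 * C) hb, r0.mkContinuous_norm_le hC4 hb, fun Z => rfl⟩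
  obtain ⟨r, hr, hr2⟩ := key ρ₀ hρ
  obtain ⟨r', hr', hr2'⟩ := key ρ₀' hρ'
  refine ⟨r, r', hr, hr', ?_, fun y y' => ?_⟩
  · rw [hr2, hr2', CStarMatrix.one_apply, CStarMatrix.one_apply, if_pos rfl, if_pos rfl, ← h1]
    ring
  · have h3 : ∀ a b : N, f (e 0 0 a) (e 0 0 b) = 1 / 2 * (ρ₀ (star a * b) + ρ₀' (b * star a)) := by
      intro a b
      rw [← h2, hf0e]
      ring
    rw [hexp, h3, h3, h3, h3, hr2, hr2']
    simp only [CStarMatrix.mul_apply, Fin.sum_univ_two, CStarMatrix.star_apply, map_add]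
    ring

theorem prove_M2 : S_M2 := by
  intro N _ _ _ τ hτ hD hO
  obtain ⟨h1, h2⟩ := Block.hasDixmier_ntr (β := Fin 2) prove_dix hτ hD
  refine ⟨h1, h2, fun K δ hδ => ?_⟩
  obtain ⟨g, hg⟩ := hO K δ hδ
  refine ⟨fun i => ⟨tens (1 : Matrix (Fin 2) (Fin 2) ℂ) (g i : N),
    Block.tens_unitary (one_mem _) (g i).2⟩, fun i j hij => ?_⟩
  have h3 : star (tens (1 : Matrix (Fin 2) (Fin 2) ℂ) (g i : N)) *
      tens (1 : Matrix (Fin 2) (Fin 2) ℂ) (g j : N) =
      tens (1 : Matrix (Fin 2) (Fin 2) ℂ) (star (g i : N) * (g j : N)) := by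
    rw [← dgh_apply, ← dgh_apply, ← dgh_apply, ← map_star, ← map_mul]
  have h4 : ∀ x : N, ntr τ (Fin 2) (tens (1 : Matrix (Fin 2) (Fin 2) ℂ) x) = τ x := by
    intro x
    change (Fintype.card (Fin 2) : ℂ)⁻¹ • (∑ i, τ (tens (1 : Matrix (Fin 2) (Fin 2) ℂ) x i i)) = _
    rw [Fin.sum_univ_two, dg_apply, dg_apply, if_pos rfl, if_pos rfl, Fintype.card_fin,
      smul_eq_mul]
    push_cast
    ring
  change ‖ntr τ (Fin 2) (star (tens (1 : Matrix (Fin 2) (Fin 2) ℂ) (g i : N)) *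
      tens (1 : Matrix (Fin 2) (Fin 2) ℂ) (g j : N))‖ ≤ δ
  rw [h3, h4]
  exact hg i j hij

end Y349.D3
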